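import Mathlib
import Pool.Agent.KS6_25.MF.Attain

/-!
The order of magnitude of `f(H)` for a `d`-regular graph `H₀` on `t` vertices with `s` dominant
vertices added: both envelopes.

For every `d`-regular `H₀` the threshold lies, up to constants, between
`t √(1 + log⁺ (d / log t)) + √(s t log s)` and `t √(log d) + √(s t log s)`, and for all `d` and `t`
both bounds are attained, for all `s`: the upper bound by (a graph containing) a random `d`-regular
bipartite graph, the lower bound by the disjoint union of copies of `K_{d,d}` and one further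
component.
-/

set_option autoImplicit false

namespace Pool.Agent.Results.MP_cf34f5_co.BothEnvelopes

open SimpleGraph
open Pool.Agent.R34.FH Pool.Agent.TH507.Host Pool.Agent.KS6_25.MF

lemma forces_pos {W : Type} [Nontrivial W] {H : SimpleGraph W} {c : ℝ} (hc : Forces H c) :
    0 < c := by
  by_contra hcon
  push Not at hcon
  have h1 : avgDeg (⊥ : SimpleGraph (Fin 1)) = 0 := by
    simp [avgDeg]
  obtain ⟨B, hB1, hB2, -⟩ := hc (Fin 1) ⊥ (by rw [h1]; exact hcon)
  obtain ⟨x, y, hxy⟩ := exists_pair_ne W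
  obtain ⟨u⟩ := (hB1 x).nonempty
  obtain ⟨v⟩ := (hB1 y).nonempty
  have h2 : u.1 = v.1 := Subsingleton.elim _ _
  exact Set.disjoint_left.1 (hB2 x y hxy) u.2 (h2 ▸ v.2)

theorem result :
    -- (1) for all graphs `H₀` with all degrees at most `d`
    (∀ (d s t : ℕ), 2 ≤ d → 2 ≤ s → s ≤ t → 1024 ≤ t → ∀ H₀ : SimpleGraph (Fin t),
      (∀ x, (H₀.neighborSet x).ncard ≤ d) →
      1 / 16 * √(s * t * Real.log s) ≤ threshold (addDominant H₀ s) ∧
        threshold (addDominant H₀ s) ≤
          18000 * (t * √(Real.log d) + √(s * t * Real.log s))) ∧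
    -- (2) the lower bound for all `d`-regular graphs `H₀`
    (∀ (d s t : ℕ), 2 ≤ d → 2 ≤ s → s ≤ t → 1024 ≤ t → ∀ H₀ : SimpleGraph (Fin t),
      Regular H₀ d →
      1 / 256 * (t * √(1 + max 0 (Real.log (d / Real.log t))) + √(s * t * Real.log s)) ≤
        threshold (addDominant H₀ s)) ∧
    -- (3) the upper bound is attained for all `d` and `t`, by one `H₀` for all `s`
    (∀ (d t : ℕ), 2 ≤ d → 4096 ≤ t → 4 * d ≤ t → Even (d * t) →
      ∃ H₀ : SimpleGraph (Fin t), Regular H₀ d ∧ ∀ s, 2 ≤ s → s ≤ t →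
        1 / 24576 * (t * √(Real.log d) + √(s * t * Real.log s)) ≤
          threshold (addDominant H₀ s)) ∧
    -- (4) the lower bound is attained for all `d` and `t`, by one `H₀` for all `s`
    (∀ (d t : ℕ), 2 ≤ d → 1024 ≤ t → 4 * d ≤ t → Even (d * t) →
      ∃ H₀ : SimpleGraph (Fin t), Regular H₀ d ∧ ∀ s, 2 ≤ s → s ≤ t →
        threshold (addDominant H₀ s) ≤
          60000 * (t * √(1 + max 0 (Real.log (d / Real.log t))) + √(s * t * Real.log s))) ∧
    -- (5) the bound for all graphs with no edges between classes of at most `D` vertices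
    (∀ (D s t : ℕ), 2 ≤ s → s ≤ t → 1024 ≤ t → ∀ (H₀ : SimpleGraph (Fin t)) (comp : Fin t → ℕ),
      (∀ x y, H₀.Adj x y → comp x = comp y) →
      (∀ i, ({x | comp x = i} : Set (Fin t)).ncard ≤ D) →
        threshold (addDominant H₀ s) ≤
          36000 * (t * √(1 + max 0 (Real.log (D / Real.log t))) + √(s * t * Real.log s))) ∧
    -- (6) the quoted lower bound `c₁ t √(log d)` fails for some `H₀` in the regime of the question
    (∀ ε : ℝ, 0 < ε → ∀ K : ℕ, ∃ d s t : ℕ, K ≤ d ∧ K * d ≤ s ∧ K * s ≤ t ∧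
      ∃ H₀ : SimpleGraph (Fin t), Regular H₀ d ∧
        threshold (addDominant H₀ s) ≤ ε * (t * √(Real.log d))) := by
  have bdd : ∀ {W : Type} [Nontrivial W] (H : SimpleGraph W), BddBelow {c | Forces H c} :=
    fun H => ⟨0, fun c hc => (forces_pos hc).le⟩
  have nt : ∀ {s t : ℕ}, 2 ≤ s → Nontrivial (Fin s ⊕ Fin t) := by
    intro s t hs
    refine ⟨Sum.inl ⟨0, by omega⟩, Sum.inl ⟨1, by omega⟩, ?_⟩
    simp
  have ne : ∀ (s t : ℕ), 2 ≤ s → s ≤ t → ∀ H₀ : SimpleGraph (Fin t),
      {c | Forces (addDominant H₀ s) c}.Nonempty := by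
    intro s t hs hst H₀
    refine ⟨_, upper (d := t) (by omega) hs hst H₀ (fun x => ?_)⟩
    have := Set.ncard_le_ncard (Set.subset_univ (H₀.neighborSet x)) Set.finite_univ
    rwa [Set.ncard_univ, Nat.card_fin] at this
  have up : ∀ (s t : ℕ), 2 ≤ s → ∀ (H₀ : SimpleGraph (Fin t)) (c : ℝ),
      Forces (addDominant H₀ s) c → threshold (addDominant H₀ s) ≤ c := by
    intro s t hs H₀ c hc
    have := nt (t := t) hs
    exact csInf_le (bdd _) hc
  have low : ∀ (s t : ℕ), 2 ≤ s → s ≤ t → 1024 ≤ t → ∀ H₀ : SimpleGraph (Fin t),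
      1 / 16 * √(s * t * Real.log s) ≤ threshold (addDominant H₀ s) := by
    intro s t hs hst ht H₀
    exact le_csInf (ne s t hs hst H₀) (fun c hc => lower_bip hs hst ht H₀ hc)
  have low2 : ∀ (s t : ℕ), 2 ≤ s → s ≤ t → ∀ (H₀ : SimpleGraph (Fin t)) (x : ℝ),
      (∀ c, Forces H₀ c → x ≤ c) → x ≤ threshold (addDominant H₀ s) := by
    intro s t hs hst H₀ x hx
    exact le_csInf (ne s t hs hst H₀) (fun c hc => hx c (forces_sub H₀ hc))
  have att : ∀ (d t : ℕ), 2 ≤ d → 1024 ≤ t → 4 * d ≤ t → Even (d * t) →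
      ∃ H₀ : SimpleGraph (Fin t), Regular H₀ d ∧ ∀ s, 2 ≤ s → s ≤ t →
        threshold (addDominant H₀ s) ≤
          60000 * (t * √(1 + max 0 (Real.log (d / Real.log t))) + √(s * t * Real.log s)) := by
    intro d t hd ht hdt he
    obtain ⟨H₀, h1, h2⟩ := attained_lower hd ht hdt he
    exact ⟨H₀, h1, fun s hs hst => up s t hs H₀ _ (h2 s hs hst)⟩
  refine ⟨?_, ?_, ?_, att, ?_, ?_⟩
  · intro d s t hd hs hst ht H₀ hH
    exact ⟨low s t hs hst ht H₀, up s t hs H₀ _ (upper hd hs hst H₀ hH)⟩
  · intro d s t hd hs hst ht H₀ hreg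
    have h1 := low s t hs hst ht H₀
    have h2 := low2 s t hs hst H₀ _ (fun c hc => lower_all ht H₀ hreg hc)
    unfold gain at h2
    have h3 : 0 ≤ √(s * t * Real.log s) := Real.sqrt_nonneg _
    linarith
  · intro d t hd ht hdt he
    obtain ⟨H₀, h1, h2⟩ := attained_upper hd ht hdt he
    refine ⟨H₀, h1, fun s hs hst => ?_⟩
    have h3 := low s t hs hst (by omega) H₀
    have h4 := low2 s t hs hst H₀ _ h2
    have h5 : 0 ≤ √(s * t * Real.log s) := Real.sqrt_nonneg _
    linarith
  · intro D s t hs hst ht H₀ comp hadj hcomp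
    apply up s t hs H₀
    have h1 := upper_comp (D := D) hs hst ht H₀ comp hadj (fun i => by
      have h2 := hcomp i
      rw [Set.ncard_eq_toFinset_card'] at h2
      convert h2 using 2
      ext x
      simp)
    exact h1
  · intro ε hε K
    -- the degree
    set R := (120000 / ε) ^ 2 with hR
    set d := K + 2 + ⌈Real.exp R⌉₊ with hd
    have hd2 : 2 ≤ d := by omega
    have hdR : (2 : ℝ) ≤ d := by exact_mod_cast hd2
    have hdexp : Real.exp R ≤ d := by
      have h1 := Nat.le_ceil (Real.exp R)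
      have h2 : ((⌈Real.exp R⌉₊ : ℕ) : ℝ) ≤ d := by
        rw [hd]
        exact_mod_cast Nat.le_add_left _ _
      linarith
    have hlogd : R ≤ Real.log d := by
      rw [Real.le_log_iff_exp_le (by linarith)]
      exact hdexp
    have hsq : 120000 / ε ≤ √(Real.log d) := by
      apply Real.le_sqrt_of_sq_le
      exact hlogd
    set s := (K + 1) * d with hs
    have hs2 : 2 ≤ s := by
      calc 2 ≤ 1 * d := by omega
        _ ≤ (K + 1) * d := Nat.mul_le_mul_right _ (by omega)
    set E := ⌈Real.exp d⌉₊ with hE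
    have hE1 : Real.exp d ≤ E := Nat.le_ceil _
    have hE0 : 0 < E := Nat.ceil_pos.2 (Real.exp_pos _)
    set t := 2048 * ((K + 1) * s ^ 2 * E) with ht
    have hKs : s ≤ (K + 1) * s ^ 2 * E := by
      calc s = 1 * s ^ 1 * 1 := by ring
        _ ≤ (K + 1) * s ^ 2 * E := by
          apply Nat.mul_le_mul (Nat.mul_le_mul (by omega)
            (Nat.pow_le_pow_right (by omega) (by norm_num))) hE0
    have hEt : E ≤ t := by
      have h1 : 0 < (K + 1) * s ^ 2 := by positivity
      calc E ≤ ((K + 1) * s ^ 2) * E := Nat.le_mul_of_pos_left _ h1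
        _ ≤ t := by omega
    have hst : s ≤ t := by omega
    have hs2t : s ^ 2 ≤ t := by
      have h1 : s ^ 2 ≤ (K + 1) * s ^ 2 * E := by
        calc s ^ 2 = 1 * s ^ 2 * 1 := by ring
          _ ≤ (K + 1) * s ^ 2 * E := Nat.mul_le_mul (Nat.mul_le_mul_right _ (by omega)) hE0
      omega
    have ht1024 : 1024 ≤ t := by omega
    have hds : d ≤ s := by
      calc d = 1 * d := (one_mul d).symm
        _ ≤ (K + 1) * d := Nat.mul_le_mul_right _ (by omega)
    have hdt : 4 * d ≤ t := by omega
    have heven : Even (d * t) := by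
      rw [ht, show d * (2048 * ((K + 1) * s ^ 2 * E)) = 2 * (d * (1024 * ((K + 1) * s ^ 2 * E))) by
        ring]
      exact even_two_mul _
    have hKst : K * s ≤ t := by
      have h1 : K * s ≤ (K + 1) * s ^ 2 * E := by
        calc K * s = K * s ^ 1 * 1 := by ring
          _ ≤ (K + 1) * s ^ 2 * E := Nat.mul_le_mul (Nat.mul_le_mul (by omega)
            (Nat.pow_le_pow_right (by omega) (by norm_num))) hE0
      omega
    refine ⟨d, s, t, by omega, ?_, hKst, ?_⟩
    · exact Nat.mul_le_mul_right _ (by omega)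
    obtain ⟨H₀, h1, h2⟩ := att d t hd2 ht1024 hdt heven
    refine ⟨H₀, h1, (h2 s hs2 hst).trans ?_⟩
    have htR : (1024 : ℝ) ≤ t := by exact_mod_cast ht1024
    have hlogt : (d : ℝ) ≤ Real.log t := by
      rw [Real.le_log_iff_exp_le (by linarith)]
      refine hE1.trans ?_
      exact_mod_cast hEt
    have hgain : max 0 (Real.log (d / Real.log t)) = 0 := by
      apply max_eq_left
      apply Real.log_nonpos (by positivity)
      rw [div_le_one (by linarith)]
      exact hlogt
    rw [hgain, add_zero, Real.sqrt_one, mul_one]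
    have hsR : (2 : ℝ) ≤ s := by exact_mod_cast hs2
    have h3 : √((s : ℝ) * t * Real.log s) ≤ t := by
      rw [Real.sqrt_le_left (by positivity)]
      have h4 : Real.log s ≤ s := by
        have := Real.log_le_sub_one_of_pos (show (0 : ℝ) < s by linarith)
        linarith
      have h5 : (s : ℝ) ^ 2 ≤ t := by exact_mod_cast hs2t
      calc (s : ℝ) * t * Real.log s ≤ s * t * s := by gcongr
        _ = s ^ 2 * t := by ring
        _ ≤ t * t := by gcongr
        _ = _ := by ring
    have h6 : 120000 ≤ ε * √(Real.log d) := by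
      rw [div_le_iff₀ hε] at hsq
      linarith
    calc 60000 * ((t : ℝ) + √((s : ℝ) * t * Real.log s)) ≤ 120000 * t := by linarith
      _ ≤ (ε * √(Real.log d)) * t := by gcongr
      _ = _ := by ring

end Pool.Agent.Results.MP_cf34f5_co.BothEnvelopes
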